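import Pool.Agent.Lib.MP_edb5be_nt.ND.Iface2
import Pool.Agent.Lib.MP_0a5adf_nt.H37.Mix

/-!
# FFA: the densities `FF m`
-/

set_option autoImplicit false

namespace Pool.Agent.Lib.MP_edb5be_nt.ND.H21

open Finset Filter Topology Pool.Agent.Lib.MP_0a5adf_nt.TP

/-! ### The total weights -/

theorem f_nonneg (m c : ℕ) (X : ZMod (3 ^ m)) : 0 ≤ f m c X := by
  unfold f
  positivity

theorem f_le (m c : ℕ) (X : ZMod (3 ^ m)) : f m c X ≤ ((Fam m c).card : ℝ) / 2 ^ c := by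
  unfold f
  refine div_le_div_of_nonneg_right ?_ (by positivity)
  exact_mod_cast card_le_card (filter_subset _ _)

theorem summable_f (hM : MassStatement) (m : ℕ) (X : ZMod (3 ^ m)) :
    Summable fun c => f m c X := by
  refine summable_of_sum_range_le (c := 1) (fun c => f_nonneg m c X) fun n => ?_
  have h := hM.2.2 (1 / 2) m n (by norm_num) (by norm_num)
  have h1 : ((1 / 2 : ℝ) / (1 - 1 / 2)) ^ m = 1 := by norm_num
  rw [h1] at h
  refine (sum_le_sum fun c _ => f_le m c X).trans (le_trans (le_of_eq ?_) h)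
  refine sum_congr rfl fun c _ => ?_
  rw [div_pow, one_pow]
  ring

/-- The total weight. -/
noncomputable def F (m : ℕ) (X : ZMod (3 ^ m)) : ℝ := ∑' c : ℕ, f m c X

theorem FF_eq (m : ℕ) (x : ℤ) : FF m x = 3 ^ m * F m (x : ZMod (3 ^ m)) := rfl

theorem tendsto_F (hM : MassStatement) (m : ℕ) (X : ZMod (3 ^ m)) :
    Tendsto (fun n => ∑ c ∈ range n, f m c X) atTop (𝓝 (F m X)) :=
  (summable_f hM m X).hasSum.tendsto_sum_nat

theorem F_nonneg (m : ℕ) (X : ZMod (3 ^ m)) : 0 ≤ F m X := tsum_nonneg fun c => f_nonneg m c X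

theorem sum_le_F (hM : MassStatement) (m n : ℕ) (X : ZMod (3 ^ m)) :
    ∑ c ∈ range n, f m c X ≤ F m X :=
  (summable_f hM m X).sum_le_tsum _ fun c _ => f_nonneg m c X

open Classical in
theorem sum_f (m c : ℕ) : ∑ X : ZMod (3 ^ m), f m c X = ((Fam m c).card : ℝ) / 2 ^ c := by
  unfold f
  rw [← Finset.sum_div]
  congr 1
  rw [card_eq_sum_card_fiberwise (f := xz (3 ^ m)) (t := (univ : Finset (ZMod (3 ^ m))))
    (fun _ _ => mem_univ _)]
  push_cast
  refine sum_congr rfl fun X _ => ?_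
  congr 2

theorem pc_le (k i s : ℕ) (M : ℤ) : Pc k i s M ≤ (i.choose s : ℝ) / 2 ^ i := by
  unfold Pc
  gcongr
  refine (card_filter_le _ _).trans (le_of_eq ?_)
  rw [card_powersetCard, Nat.card_Icc, Nat.add_sub_cancel]

theorem pc_nonneg (k i s : ℕ) (M : ℤ) : 0 ≤ Pc k i s M := by
  unfold Pc
  positivity

theorem tendsto_choose (m : ℕ) :
    Tendsto (fun i : ℕ => (i.choose m : ℝ) / 2 ^ i) atTop (𝓝 0) := by
  have h := tendsto_pow_const_div_const_pow_of_one_lt m (r := (2 : ℝ)) (by norm_num)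
  refine squeeze_zero (fun i => by positivity) (fun i => ?_) h
  gcongr
  have h1 := Nat.choose_le_pow_div (α := ℝ) m i
  refine h1.trans (div_le_self (by positivity) ?_)
  exact_mod_cast Nat.one_le_iff_ne_zero.2 (Nat.factorial_ne_zero m)

theorem tendsto_pc (m : ℕ) (M : ℤ) : Tendsto (fun i : ℕ => Pc m i m M) atTop (𝓝 0) :=
  squeeze_zero (fun _ => pc_nonneg _ _ _ _) (fun _ => pc_le _ _ _ _) (tendsto_choose m)

/-- The three lifts. -/
theorem F_lift (hM : MassStatement) (hP : PhiStatement) (m : ℕ) (M : ℤ) :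
    F (m + 1) ((M : ℤ) : ZMod (3 ^ (m + 1))) + F (m + 1) ((M + 3 ^ m : ℤ) : ZMod (3 ^ (m + 1))) +
      F (m + 1) ((M + 2 * 3 ^ m : ℤ) : ZMod (3 ^ (m + 1))) = F m ((M : ℤ) : ZMod (3 ^ m)) := by
  have hsh : ∀ (k : ℕ) (X : ZMod (3 ^ k)),
      Tendsto (fun i => ∑ c ∈ range (i + 1), f k c X) atTop (𝓝 (F k X)) := fun k X =>
    (tendsto_F hM k X).comp (tendsto_add_atTop_nat 1)
  have h1 := ((hsh (m + 1) ((M : ℤ) : ZMod (3 ^ (m + 1)))).add
    (hsh (m + 1) ((M + 3 ^ m : ℤ) : ZMod (3 ^ (m + 1))))).add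
      (hsh (m + 1) ((M + 2 * 3 ^ m : ℤ) : ZMod (3 ^ (m + 1))))
  have h2 := (hsh m ((M : ℤ) : ZMod (3 ^ m))).sub (tendsto_pc m M)
  rw [sub_zero] at h2
  refine tendsto_nhds_unique h1 (h2.congr' ?_)
  filter_upwards [eventually_ge_atTop m] with i hi
  rw [← hP.1, ← hP.1, ← hP.1, ← hP.1, ← sum_add_distrib, ← sum_add_distrib,
    ← Finset.sum_Ioc_add_eq_sum_Icc hi, add_sub_cancel_right]
  have hI : Icc (m + 1) i = Ioc m i := by
    ext x
    simp only [mem_Icc, mem_Ioc]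
    omega
  rw [hI]
  exact sum_congr rfl fun s _ => Pool.Agent.Lib.MP_0a5adf_nt.H37.pc_lift m i s M

theorem FF_lift (hM : MassStatement) (hP : PhiStatement) (m : ℕ) (x : ℤ) :
    FF (m + 1) x + FF (m + 1) (x + 3 ^ m) + FF (m + 1) (x + 2 * 3 ^ m) = 3 * FF m x := by
  have h := F_lift hM hP m x
  rw [FF_eq, FF_eq, FF_eq, FF_eq, ← h]
  ring

theorem FF_period (m : ℕ) (x : ℤ) : FF m (x + 3 ^ m) = FF m x := by
  rw [FF_eq, FF_eq]
  congr 2
  have h := ZMod.natCast_self (3 ^ m)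
  push_cast at h ⊢
  rw [h, add_zero]

/-- Splitting the range. -/
theorem sum3 (h : ℕ → ℝ) (m : ℕ) : ∑ x ∈ range (3 ^ (m + 1)), h x =
    ∑ x ∈ range (3 ^ m), (h x + h (x + 3 ^ m) + h (x + 2 * 3 ^ m)) := by
  have e : 3 ^ (m + 1) = 3 ^ m + (3 ^ m + 3 ^ m) := by ring
  rw [e, sum_range_add, sum_range_add, sum_add_distrib, sum_add_distrib, add_assoc]
  congr 1
  congr 1
  · exact sum_congr rfl fun x _ => by rw [add_comm]
  · exact sum_congr rfl fun x _ => by congr 1; ring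

theorem sum_zmod (m : ℕ) (g : ZMod (3 ^ m) → ℝ) :
    ∑ x ∈ range (3 ^ m), g (((x : ℕ) : ℤ) : ZMod (3 ^ m)) = ∑ X : ZMod (3 ^ m), g X := by
  refine Finset.sum_nbij' (i := fun x : ℕ => (((x : ℕ) : ℤ) : ZMod (3 ^ m)))
    (j := fun X => ZMod.val X) ?_ ?_ ?_ ?_ ?_
  · intro x _; exact mem_univ _
  · intro X _
    exact mem_range.2 (ZMod.val_lt X)
  · intro x hx
    rw [Int.cast_natCast, ZMod.val_natCast, Nat.mod_eq_of_lt (mem_range.1 hx)]
  · intro X _
    rw [Int.cast_natCast, ZMod.natCast_zmod_val]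
  · intro x _; rfl

theorem FF_zero (hM : MassStatement) : FF 0 0 = 1 := by
  rw [FF_eq, pow_zero, one_mul]
  unfold F
  rw [tsum_eq_single 0]
  · unfold f
    rw [hM.1 0, if_pos rfl]
    have : ((({∅} : Finset (Finset ℕ)).filter fun S => xz (3 ^ 0) S = ((0 : ℤ) : ZMod (3 ^ 0))))
        = {∅} := by
      rw [Finset.filter_eq_self]
      intro S hS
      rw [mem_singleton] at hS
      subst hS
      unfold xz
      simp
    rw [this]
    simp
  · intro c hc
    unfold f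
    rw [hM.1 c, if_neg hc]
    simp

theorem sum_FF (hM : MassStatement) (hP : PhiStatement) (m : ℕ) :
    ∑ x ∈ range (3 ^ m), FF m x = 3 ^ m := by
  induction m with
  | zero =>
    rw [pow_zero, sum_range_one, pow_zero]
    exact FF_zero hM
  | succ m ih =>
    rw [sum3 (fun x => FF (m + 1) x)]
    have h : ∀ x ∈ range (3 ^ m), FF (m + 1) (x : ℕ) + FF (m + 1) ((x + 3 ^ m : ℕ) : ℤ) +
        FF (m + 1) ((x + 2 * 3 ^ m : ℕ) : ℤ) = 3 * FF m (x : ℕ) := by
      intro x _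
      push_cast
      exact FF_lift hM hP m x
    rw [sum_congr rfl h, ← mul_sum, ih, pow_succ]
    ring

/-! ### The tail -/

theorem tail_bound (hM : MassStatement) (m n : ℕ) :
    ∑ c ∈ Ico (4 * m + 1) n, ((Fam m c).card : ℝ) / 2 ^ c ≤ (3 / 5 : ℝ) ^ m := by
  have h := hM.2.2 (3 / 4) m n (by norm_num) (by norm_num)
  have h1 : ((3 / 4 : ℝ) / (1 - 3 / 4)) = 3 := by norm_num
  rw [h1] at h
  have h2 : ∀ c ∈ Ico (4 * m + 1) n, ((Fam m c).card : ℝ) / 2 ^ c ≤
      ((Fam m c).card : ℝ) * (3 / 4) ^ c * (2 / 3) ^ (4 * m) := by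
    intro c hc
    have hc' : 4 * m ≤ c := by
      have := (mem_Ico.1 hc).1
      omega
    have h3 : (1 : ℝ) / 2 ^ c = (3 / 4) ^ c * (2 / 3) ^ c := by
      rw [← mul_pow, one_div, ← inv_pow]
      norm_num
    have h4 : ((2 / 3 : ℝ)) ^ c ≤ (2 / 3) ^ (4 * m) :=
      pow_le_pow_of_le_one (by norm_num) (by norm_num) hc'
    calc ((Fam m c).card : ℝ) / 2 ^ c = (Fam m c).card * (1 / 2 ^ c) := by ring
      _ = ((Fam m c).card : ℝ) * (3 / 4) ^ c * (2 / 3) ^ c := by rw [h3]; ring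
      _ ≤ _ := by gcongr
  refine (sum_le_sum h2).trans ?_
  rw [← sum_mul]
  have h5 : ∑ c ∈ Ico (4 * m + 1) n, ((Fam m c).card : ℝ) * (3 / 4) ^ c ≤ 3 ^ m := by
    refine le_trans (sum_le_sum_of_subset_of_nonneg ?_ fun c _ _ => by positivity) h
    intro c hc
    exact mem_range.2 (mem_Ico.1 hc).2
  calc (∑ c ∈ Ico (4 * m + 1) n, ((Fam m c).card : ℝ) * (3 / 4) ^ c) * (2 / 3) ^ (4 * m) ≤
        3 ^ m * (2 / 3) ^ (4 * m) := by gcongr
    _ = (16 / 27) ^ m := by rw [pow_mul, ← mul_pow]; norm_num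
    _ ≤ (3 / 5) ^ m := pow_le_pow_left₀ (by norm_num) (by norm_num) m

theorem sum_diff (hM : MassStatement) (m : ℕ) :
    ∑ x ∈ range (3 ^ m), (FF m x - Phi m x) ≤ 3 ^ m * (3 / 5 : ℝ) ^ m := by
  have h1 : ∑ x ∈ range (3 ^ m), (FF m x - Phi m x) =
      3 ^ m * ∑ X : ZMod (3 ^ m), (F m X - ∑ c ∈ range (4 * m + 1), f m c X) := by
    rw [← sum_zmod m (fun X => F m X - ∑ c ∈ range (4 * m + 1), f m c X), mul_sum]
    refine sum_congr rfl fun x _ => ?_
    rw [FF_eq]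
    unfold Phi
    ring
  rw [h1]
  refine mul_le_mul_of_nonneg_left ?_ (by positivity)
  have h2 : Tendsto (fun n => ∑ X : ZMod (3 ^ m), (∑ c ∈ range n, f m c X -
      ∑ c ∈ range (4 * m + 1), f m c X)) atTop
      (𝓝 (∑ X : ZMod (3 ^ m), (F m X - ∑ c ∈ range (4 * m + 1), f m c X))) :=
    tendsto_finsetSum _ fun X _ => (tendsto_F hM m X).sub tendsto_const_nhds
  refine le_of_tendsto h2 ?_
  filter_upwards [eventually_ge_atTop (4 * m + 1)] with n hn
  refine le_trans (le_of_eq ?_) (tail_bound hM m n)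
  have h3 : ∀ X : ZMod (3 ^ m), ∑ c ∈ range n, f m c X - ∑ c ∈ range (4 * m + 1), f m c X =
      ∑ c ∈ Ico (4 * m + 1) n, f m c X := fun X => (sum_Ico_eq_sub _ hn).symm
  rw [sum_congr rfl fun X _ => h3 X, sum_comm]
  exact sum_congr rfl fun c _ => sum_f m c

/-! ### Closeness in `L¹` -/

theorem one_level (hM : MassStatement) (hP : PhiStatement) {m : ℕ} {C : ℝ}
    (hJ : ∀ c₁ : ℕ, Josc (m + 1) c₁ ≤ C) :
    ∑ x ∈ range (3 ^ (m + 1)), |FF (m + 1) x - FF m x| ≤ 3 ^ (m + 1) * C := by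
  have h1 : ∑ x ∈ range (3 ^ (m + 1)), |FF (m + 1) x - FF m x| =
      3 ^ (m + 1) * ∑ X : ZMod (3 ^ (m + 1)), |F (m + 1) X -
        (F (m + 1) X + F (m + 1) (X + 3 ^ m) + F (m + 1) (X + 2 * 3 ^ m)) / 3| := by
    rw [← sum_zmod (m + 1) (fun X => |F (m + 1) X -
        (F (m + 1) X + F (m + 1) (X + 3 ^ m) + F (m + 1) (X + 2 * 3 ^ m)) / 3|), mul_sum]
    refine sum_congr rfl fun x _ => ?_
    have h2 := F_lift hM hP m x
    have h3 : ∀ y : ℝ, (3 : ℝ) ^ (m + 1) * |y| = |3 ^ (m + 1) * y| := fun y => by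
      rw [abs_mul, abs_of_pos (by positivity : (0 : ℝ) < 3 ^ (m + 1))]
    rw [h3, FF_eq, FF_eq, ← h2]
    congr 1
    push_cast
    rw [pow_succ]
    ring
  rw [h1]
  refine mul_le_mul_of_nonneg_left ?_ (by positivity)
  have ht := fun X : ZMod (3 ^ (m + 1)) => tendsto_F hM (m + 1) X
  have h2 : Tendsto (fun n => ∑ X : ZMod (3 ^ (m + 1)), |∑ c ∈ range n, f (m + 1) c X -
      (∑ c ∈ range n, f (m + 1) c X + ∑ c ∈ range n, f (m + 1) c (X + 3 ^ m) +
        ∑ c ∈ range n, f (m + 1) c (X + 2 * 3 ^ m)) / 3|) atTop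
      (𝓝 (∑ X : ZMod (3 ^ (m + 1)), |F (m + 1) X -
        (F (m + 1) X + F (m + 1) (X + 3 ^ m) + F (m + 1) (X + 2 * 3 ^ m)) / 3|)) :=
    tendsto_finsetSum _ fun X _ =>
      ((ht X).sub ((((ht X).add (ht _)).add (ht _)).div_const 3)).abs
  refine le_of_tendsto' h2 fun n => ?_
  refine le_trans ?_ (hJ n)
  unfold Josc oscf
  rw [sum_comm]
  refine sum_le_sum fun X _ => ?_
  have h3 : ∑ c ∈ range n, f (m + 1) c X -
      (∑ c ∈ range n, f (m + 1) c X + ∑ c ∈ range n, f (m + 1) c (X + 3 ^ m) +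
        ∑ c ∈ range n, f (m + 1) c (X + 2 * 3 ^ m)) / 3 =
      ∑ c ∈ range n, (f (m + 1) c X - (f (m + 1) c X + f (m + 1) c (X + 3 ^ (m + 1 - 1)) +
        f (m + 1) c (X + 2 * 3 ^ (m + 1 - 1))) / 3) := by
    rw [Nat.add_sub_cancel, sum_sub_distrib, ← sum_div, sum_add_distrib, sum_add_distrib]
  rw [h3]
  exact abs_sum_le_sum_abs _ _

theorem closeness (hM : MassStatement) (hP : PhiStatement) (hJ : JoscStatement) :
    ∃ C : ℝ, 0 < C ∧ ∀ n m : ℕ, 1 ≤ n → n ≤ m →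
      ∑ x ∈ range (3 ^ m), |FF m x - FF n x| ≤ C / n * 3 ^ m := by
  obtain ⟨C, hC, hJC⟩ := hJ 2
  refine ⟨C, hC, fun n m hn hm => ?_⟩
  have hn0 : (0 : ℝ) < n := by exact_mod_cast hn
  have key : ∑ x ∈ range (3 ^ m), |FF m x - FF n x| ≤ C * (1 / n - 1 / m) * 3 ^ m := by
    induction m, hm using Nat.le_induction with
    | base => simp
    | succ m hm ih =>
      have hm0 : (0 : ℝ) < m := by
        have : 1 ≤ m := hn.trans hm
        exact_mod_cast this
      have h1 : ∑ x ∈ range (3 ^ (m + 1)), |FF (m + 1) x - FF n x| ≤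
          ∑ x ∈ range (3 ^ (m + 1)), |FF (m + 1) x - FF m x| +
            ∑ x ∈ range (3 ^ (m + 1)), |FF m x - FF n x| := by
        rw [← sum_add_distrib]
        exact sum_le_sum fun x _ => abs_sub_le _ _ _
      have h2 := one_level hM hP (m := m) (fun c₁ => hJC (m + 1) c₁ (by omega))
      have hper : ∀ x : ℤ, FF n (x + 3 ^ m) = FF n x := by
        intro x
        have : ∀ j : ℕ, FF n (x + 3 ^ n * j) = FF n x := by
          intro j
          induction j with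
          | zero => simp
          | succ j ihj =>
            have e : x + 3 ^ n * ((j + 1 : ℕ) : ℤ) = (x + 3 ^ n * j) + 3 ^ n := by push_cast; ring
            rw [e, FF_period, ihj]
        have h := this (3 ^ (m - n))
        push_cast at h
        rwa [← pow_add, Nat.add_sub_cancel' hm] at h
      have h3 : ∑ x ∈ range (3 ^ (m + 1)), |FF m x - FF n x| =
          3 * ∑ x ∈ range (3 ^ m), |FF m x - FF n x| := by
        rw [sum3 (fun x => |FF m x - FF n x|), mul_sum]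
        refine sum_congr rfl fun x _ => ?_
        have e1 : ((x + 3 ^ m : ℕ) : ℤ) = (x : ℤ) + 3 ^ m := by push_cast; ring
        have e2 : ((x + 2 * 3 ^ m : ℕ) : ℤ) = ((x : ℤ) + 3 ^ m) + 3 ^ m := by push_cast; ring
        rw [e1, e2, FF_period m, hper, FF_period m ((x : ℤ) + 3 ^ m), FF_period m, hper, hper]
        ring
      rw [h3] at h1
      refine h1.trans ((add_le_add h2 (mul_le_mul_of_nonneg_left ih (by norm_num))).trans ?_)
      have h4 : (1 : ℝ) / (m + 1) ^ 2 ≤ 1 / m - 1 / (m + 1) := by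
        rw [div_sub_div _ _ hm0.ne' (by positivity), div_le_div_iff₀ (by positivity) (by positivity)]
        nlinarith
      have h5 : C * (1 / ((m : ℝ) + 1) ^ 2) ≤ C * (1 / m - 1 / (m + 1)) :=
        mul_le_mul_of_nonneg_left h4 hC.le
      have h6 : (0 : ℝ) < 3 ^ (m + 1) := by positivity
      have h7 := mul_le_mul_of_nonneg_left h5 h6.le
      push_cast
      rw [pow_succ (3 : ℝ) m] at h7 ⊢
      have e : C / ((m : ℝ) + 1) ^ 2 = C * (1 / ((m : ℝ) + 1) ^ 2) := by ring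
      rw [e]
      nlinarith [h7]
  refine key.trans ?_
  have h8 : (0 : ℝ) ≤ 1 / m := by positivity
  have : C * (1 / (n : ℝ) - 1 / m) ≤ C / n := by
    rw [div_eq_mul_one_div C]
    exact mul_le_mul_of_nonneg_left (by linarith) hC.le
  exact mul_le_mul_of_nonneg_right this (by positivity)

/-- FFA. -/
theorem ffa (hM : MassStatement) (hP : PhiStatement) (hJ : JoscStatement) : FFAStatement := by
  refine ⟨fun m x => ⟨?_, FF_period m x, ?_⟩, sum_FF hM hP, sum_diff hM, closeness hM hP hJ⟩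
  · rw [FF_eq]
    exact mul_nonneg (by positivity) (F_nonneg m _)
  · rw [FF_eq]
    unfold Phi
    exact mul_le_mul_of_nonneg_left (sum_le_F hM m _ _) (by positivity)

end Pool.Agent.Lib.MP_edb5be_nt.ND.H21
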