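import Pool.Agent.Lib.MP_edb5be_nt.ND.Iface2

/-!
# PV2: the number of visits to a dyadic block is bounded in mean square
-/

set_option autoImplicit false

namespace Pool.Agent.Lib.MP_edb5be_nt.ND.H21

open Finset Pool.Agent.Lib.MP_0a5adf_nt.TP

/-! ### Subsets according to the numbers of elements of two kinds -/

theorem sum_powerset_split {U : Finset ℕ} (p : ℕ → Prop) [DecidablePred p]
    (g : ℕ → ℕ → ℝ) :
    ∑ S ∈ U.powerset, g (S.filter p).card (S.filter fun x => ¬ p x).card =
      ∑ A ∈ (U.filter p).powerset, ∑ B ∈ (U.filter fun x => ¬ p x).powerset,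
        g A.card B.card := by
  rw [← sum_product']
  refine Finset.sum_nbij' (i := fun S => (S.filter p, S.filter fun x => ¬ p x))
    (j := fun q => q.1 ∪ q.2) ?_ ?_ ?_ ?_ ?_
  · intro S hS
    rw [mem_powerset] at hS
    rw [mem_product, mem_powerset, mem_powerset]
    exact ⟨filter_subset_filter _ hS, filter_subset_filter _ hS⟩
  · rintro ⟨A, B⟩ hq
    rw [mem_product, mem_powerset, mem_powerset] at hq
    rw [mem_powerset]
    exact union_subset (hq.1.trans (filter_subset _ _)) (hq.2.trans (filter_subset _ _))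
  · intro S _
    exact filter_union_filter_not_eq p S
  · rintro ⟨A, B⟩ hq
    rw [mem_product, mem_powerset, mem_powerset] at hq
    obtain ⟨hA, hB⟩ := hq
    have h1 : ∀ x ∈ A, p x := fun x hx => (mem_filter.1 (hA hx)).2
    have h2 : ∀ x ∈ B, ¬ p x := fun x hx => (mem_filter.1 (hB hx)).2
    refine Prod.ext ?_ ?_
    · ext x
      simp only [mem_filter, mem_union]
      constructor
      · rintro ⟨hx | hx, hp⟩
        · exact hx
        · exact absurd hp (h2 x hx)
      · intro hx
        exact ⟨Or.inl hx, h1 x hx⟩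
    · ext x
      simp only [mem_filter, mem_union]
      constructor
      · rintro ⟨hx | hx, hp⟩
        · exact absurd (h1 x hx) hp
        · exact hx
      · intro hx
        exact ⟨Or.inr hx, h2 x hx⟩
  · intro S _
    rfl

theorem sum_powerset_choose {U : Finset ℕ} (p : ℕ → Prop) [DecidablePred p]
    (g : ℕ → ℕ → ℝ) {i j : ℕ} (hi : (U.filter p).card = i)
    (hj : (U.filter fun x => ¬ p x).card = j) :
    ∑ S ∈ U.powerset, g (S.filter p).card (S.filter fun x => ¬ p x).card =
      ∑ v ∈ range (i + 1), ∑ w ∈ range (j + 1),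
        (i.choose v : ℝ) * ((j.choose w : ℝ) * g v w) := by
  rw [sum_powerset_split]
  have h1 : ∀ A : Finset ℕ, ∑ B ∈ (U.filter fun x => ¬ p x).powerset, g A.card B.card =
      ∑ w ∈ range (j + 1), (j.choose w : ℝ) * g A.card w := by
    intro A
    rw [sum_powerset_apply_card (fun w => g A.card w), hj]
    exact sum_congr rfl fun w _ => by rw [nsmul_eq_mul]
  rw [sum_congr rfl fun A _ => h1 A,
    sum_powerset_apply_card (fun v => ∑ w ∈ range (j + 1), (j.choose w : ℝ) * g v w), hi]
  refine sum_congr rfl fun v _ => ?_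
  rw [nsmul_eq_mul, mul_sum]

/-! ### The square of a sum -/

theorem sq_sum_le (a : ℕ → ℝ) (ha : ∀ i, 0 ≤ a i) (n : ℕ) :
    (∑ i ∈ range n, a i) ^ 2 ≤ 2 * ∑ i ∈ range n, ∑ j ∈ range (n - i), a i * a (i + j) := by
  induction n with
  | zero => simp
  | succ n ih =>
    have h1 : ∑ i ∈ range (n + 1), ∑ j ∈ range (n + 1 - i), a i * a (i + j) =
        ∑ i ∈ range n, ∑ j ∈ range (n - i), a i * a (i + j) +
          (∑ i ∈ range n, a i) * a n + a n * a n := by
      rw [sum_range_succ, sum_mul, ← sum_add_distrib]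
      congr 1
      · refine sum_congr rfl fun i hi => ?_
        have hi' : i < n := mem_range.1 hi
        have e : n + 1 - i = (n - i) + 1 := by omega
        rw [e, sum_range_succ]
        congr 2
        congr 1
        omega
      · have e : n + 1 - n = 1 := by omega
        rw [e, sum_range_one, add_zero]
    rw [h1, sum_range_succ]
    have h2 := ha n
    nlinarith [mul_nonneg h2 h2]

/-! ### One visit -/

theorem logb_five : Real.logb 2 (5 / 4) < 1 / 2 := by
  rw [Real.logb_lt_iff_lt_rpow (by norm_num) (by norm_num), ← Real.sqrt_eq_rpow]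
  exact Real.lt_sqrt_of_sq_lt (by norm_num)

theorem logb_three : -(1 / 2) < Real.logb 2 (3 / 4) := by
  rw [Real.lt_logb_iff_rpow_lt (by norm_num) (by norm_num),
    Real.rpow_neg (by norm_num), ← Real.sqrt_eq_rpow]
  rw [inv_lt_comm₀ (by positivity) (by norm_num)]
  exact Real.lt_sqrt_of_sq_lt (by norm_num)

theorem visit (hD : DynStatement) (d : Bool) (k z i N : ℕ) (hi : i + 2 ≤ z)
    (hN : N ∈ Ico (2 ^ z) (2 ^ (z + 1))) (hM : (T d)^[i] N ∈ blk k 1) :
    (z : ℝ) - k - 3 / 2 ≤ (i : ℝ) - th * (par d N i).card ∧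
      (i : ℝ) - th * (par d N i).card < (z : ℝ) - k - 3 / 2 + 3 := by
  obtain ⟨h1, _, h2⟩ := hD.1 d N i
  have h3 := hD.2.2.1 i (par d N i) h1
  set S := par d N i
  set M := (T d)^[i] N
  set s := S.card
  rw [mem_Ico] at hN
  unfold blk at hM
  rw [mem_Ico] at hM
  have hN1 : (2 : ℝ) ^ z ≤ N := by exact_mod_cast hN.1
  have hN2 : (N : ℝ) < 2 ^ (z + 1) := by exact_mod_cast hN.2
  have hM1 : (2 : ℝ) ^ k ≤ M := by exact_mod_cast hM.1
  have hM2 : (M : ℝ) < 2 ^ (k + 1) := by exact_mod_cast hM.2
  have hN0 : (0 : ℝ) < N := lt_of_lt_of_le (by positivity) hN1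
  have hM0 : (0 : ℝ) < M := lt_of_lt_of_le (by positivity) hM1
  have h4 : (2 : ℝ) ^ i * 4 ≤ N := by
    have : (2 : ℝ) ^ i * 4 = 2 ^ (i + 2) := by rw [pow_add]; norm_num
    rw [this]
    exact (pow_le_pow_right₀ (by norm_num) hi).trans hN1
  have h5 : (2 : ℝ) ^ i * M = 3 ^ s * N + sg d * num i S := by exact_mod_cast h2
  have h6 : (num i S : ℝ) ≤ 3 ^ s * 2 ^ i := by
    have : num i S ≤ 3 ^ s * 2 ^ i := le_trans (Nat.le_add_right _ _) h3
    exact_mod_cast this
  have h7 : (num i S : ℝ) ≤ 1 / 4 * (3 ^ s * N) := by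
    have : (3 : ℝ) ^ s * 2 ^ i ≤ 3 ^ s * (N / 4) := by
      refine mul_le_mul_of_nonneg_left ?_ (by positivity)
      linarith
    linarith
  have h8 : (0 : ℝ) ≤ num i S := by positivity
  have h9 : 3 / 4 * (3 ^ s * (N : ℝ)) ≤ 2 ^ i * M ∧ (2 : ℝ) ^ i * M ≤ 5 / 4 * (3 ^ s * N) := by
    cases d with
    | true => simp only [sg] at h5; push_cast at h5; constructor <;> simp at h5 <;> linarith
    | false => simp only [sg] at h5; push_cast at h5; constructor <;> simp at h5 <;> linarith
  have hlogM : Real.logb 2 (2 ^ i * (M : ℝ)) = i + Real.logb 2 M := by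
    rw [Real.logb_mul (by positivity) hM0.ne', Real.logb_pow, Real.logb_self_eq_one (by norm_num),
      mul_one]
  have hlogN : Real.logb 2 (3 ^ s * (N : ℝ)) = th * s + Real.logb 2 N := by
    rw [Real.logb_mul (by positivity) hN0.ne', Real.logb_pow]
    unfold th
    ring
  have l1 : Real.logb 2 (3 / 4) + (th * s + Real.logb 2 N) ≤ i + Real.logb 2 M := by
    rw [← hlogM, ← hlogN, ← Real.logb_mul (by norm_num) (by positivity)]
    exact Real.logb_le_logb_of_le (by norm_num) (by positivity) h9.1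
  have l2 : (i : ℝ) + Real.logb 2 M ≤ Real.logb 2 (5 / 4) + (th * s + Real.logb 2 N) := by
    rw [← hlogM, ← hlogN, ← Real.logb_mul (by norm_num) (by positivity)]
    exact Real.logb_le_logb_of_le (by norm_num) (by positivity) h9.2
  have lp : ∀ e : ℕ, Real.logb 2 ((2 : ℝ) ^ e) = e := by
    intro e
    rw [Real.logb_pow, Real.logb_self_eq_one (by norm_num), mul_one]
  have lN1 : (z : ℝ) ≤ Real.logb 2 N := by
    rw [← lp z]
    exact Real.logb_le_logb_of_le (by norm_num) (by positivity) hN1
  have lN2 : Real.logb 2 N < z + 1 := by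
    have := Real.logb_lt_logb (b := 2) (by norm_num) hN0 hN2
    rw [lp] at this
    push_cast at this
    exact this
  have lM1 : (k : ℝ) ≤ Real.logb 2 M := by
    rw [← lp k]
    exact Real.logb_le_logb_of_le (by norm_num) (by positivity) hM1
  have lM2 : Real.logb 2 M < k + 1 := by
    have := Real.logb_lt_logb (b := 2) (by norm_num) hM0 hM2
    rw [lp] at this
    push_cast at this
    exact this
  have a1 := logb_five
  have a2 := logb_three
  constructor <;> linarith

/-! ### Two visits -/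

theorem par_shift (d : Bool) (N i j : ℕ) :
    ((par d N (i + j)).filter fun x => j < x).card = (par d N i).card := by
  have e : ((par d N (i + j)).filter fun x => j < x) = (par d N i).map (addLeftEmbedding j) := by
    ext x
    unfold par
    simp only [mem_filter, mem_Icc, mem_map, addLeftEmbedding_apply]
    constructor
    · rintro ⟨⟨⟨h1, h2⟩, h3⟩, h4⟩
      refine ⟨x - j, ⟨⟨by omega, by omega⟩, ?_⟩, by omega⟩
      have e : i - (x - j) = i + j - x := by omega
      rw [e]
      exact h3
    · rintro ⟨y, ⟨⟨h1, h2⟩, h3⟩, rfl⟩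
      refine ⟨⟨⟨by omega, by omega⟩, ?_⟩, by omega⟩
      have e : i + j - (j + y) = i - y := by omega
      rw [e]
      exact h3
  rw [e, card_map]

theorem card_hi (i j : ℕ) : ((Icc 1 (i + j)).filter fun x => j < x).card = i := by
  have : ((Icc 1 (i + j)).filter fun x => j < x) = Ioc j (i + j) := by
    ext x
    simp only [mem_filter, mem_Icc, mem_Ioc]
    omega
  rw [this, Nat.card_Ioc]
  omega

theorem card_lo (i j : ℕ) : ((Icc 1 (i + j)).filter fun x => ¬ j < x).card = j := by
  have : ((Icc 1 (i + j)).filter fun x => ¬ j < x) = Icc 1 j := by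
    ext x
    simp only [mem_filter, mem_Icc]
    omega
  rw [this, Nat.card_Icc]
  omega

open Classical in
theorem two_visits (hC : CntParStatement) (d : Bool) (z i j : ℕ) (hz : i + j ≤ z)
    (P Q : ℕ → Prop) :
    (((Ico (2 ^ z) (2 ^ (z + 1))).filter
      fun N => P (par d N i).card ∧ Q (par d N (i + j)).card).card : ℝ) =
      2 ^ z * ∑ v ∈ range (i + 1), ∑ w ∈ range (j + 1),
        bw i v * (bw j w * if P v ∧ Q (v + w) then 1 else 0) := by
  set F : Finset (Finset ℕ) := (Icc 1 (i + j)).powerset.filter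
    fun S => P (S.filter fun x => j < x).card ∧ Q S.card with hF
  have h1 : ((Ico (2 ^ z) (2 ^ (z + 1))).filter
      fun N => P (par d N i).card ∧ Q (par d N (i + j)).card) =
      (Ico (2 ^ z) (2 ^ (z + 1))).filter fun N => par d N (i + j) ∈ F := by
    ext N
    simp only [mem_filter, hF, mem_powerset, par_shift]
    constructor
    · rintro ⟨h, h2⟩
      refine ⟨h, ?_, h2⟩
      unfold par
      exact filter_subset _ _
    · rintro ⟨h, _, h2⟩
      exact ⟨h, h2⟩
  have h2 := hC d (i + j) z F hz (filter_subset _ _)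
  rw [h1, h2]
  have h3 : (F.card : ℝ) = ∑ S ∈ (Icc 1 (i + j)).powerset,
      (fun v w => if P v ∧ Q (v + w) then (1 : ℝ) else 0) (S.filter fun x => j < x).card
        (S.filter fun x => ¬ j < x).card := by
    rw [hF, card_eq_sum_ones, sum_filter]
    push_cast
    refine sum_congr rfl fun S _ => ?_
    have e : (S.filter fun x => j < x).card + (S.filter fun x => ¬ j < x).card = S.card :=
      card_filter_add_card_filter_not _
    simp only [e]
  have h4 := sum_powerset_choose (U := Icc 1 (i + j)) (fun x => j < x)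
    (fun v w => if P v ∧ Q (v + w) then (1 : ℝ) else 0) (card_hi i j) (card_lo i j)
  push_cast
  rw [h3, h4, mul_sum, mul_sum]
  refine sum_congr rfl fun v _ => ?_
  rw [mul_sum, mul_sum]
  refine sum_congr rfl fun w _ => ?_
  unfold bw
  have e : (2 : ℝ) ^ z = 2 ^ (z - (i + j)) * (2 ^ i * 2 ^ j) := by
    rw [← pow_add, ← pow_add]
    congr 1
    omega
  rw [e]
  have hi0 : (2 : ℝ) ^ i ≠ 0 := by positivity
  have hj0 : (2 : ℝ) ^ j ≠ 0 := by positivity
  field_simp

/-- The window. -/
def Wn (x : ℝ) (i s : ℕ) : Prop := x ≤ (i : ℝ) - th * s ∧ (i : ℝ) - th * s < x + 3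

open Classical in
/-- PV2. -/
theorem pv2 (hD : DynStatement) (hC : CntParStatement) (hV : VisitsStatement) : PV2Statement := by
  obtain ⟨Cv, hCv, hv⟩ := hV
  refine ⟨2 * Cv ^ 2, 40, by positivity, fun d k z hz => ?_⟩
  set n := 19 * z / 20 with hn
  have hnz : n + 2 ≤ z := by omega
  set x : ℝ := (z : ℝ) - k - 3 / 2 with hx
  set I := Ico (2 ^ z) (2 ^ (z + 1)) with hI
  set a : ℕ → ℕ → ℝ := fun N i => if (T d)^[i] N ∈ blk k 1 then 1 else 0 with ha
  have h1 : ∀ N, (((range n).filter fun i => (T d)^[i] N ∈ blk k 1).card : ℝ) =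
      ∑ i ∈ range n, a N i := by
    intro N
    rw [card_eq_sum_ones, sum_filter]
    push_cast
    rfl
  have ha0 : ∀ N i, 0 ≤ a N i := by
    intro N i
    simp only [ha]
    split_ifs <;> norm_num
  have h2 : ∑ N ∈ I, (((range n).filter fun i => (T d)^[i] N ∈ blk k 1).card : ℝ) ^ 2 ≤
      2 * ∑ i ∈ range n, ∑ j ∈ range (n - i), ∑ N ∈ I, a N i * a N (i + j) := by
    have h3 : ∑ N ∈ I, (((range n).filter fun i => (T d)^[i] N ∈ blk k 1).card : ℝ) ^ 2 ≤
        ∑ N ∈ I, 2 * ∑ i ∈ range n, ∑ j ∈ range (n - i), a N i * a N (i + j) := by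
      refine sum_le_sum fun N _ => ?_
      rw [h1]
      exact sq_sum_le (a N) (ha0 N) n
    refine h3.trans (le_of_eq ?_)
    rw [← mul_sum, sum_comm]
    congr 1
    refine sum_congr rfl fun i _ => ?_
    rw [sum_comm]
  refine h2.trans ?_
  -- the two visits
  have h4 : ∀ i ∈ range n, ∀ j ∈ range (n - i), ∑ N ∈ I, a N i * a N (i + j) ≤
      2 ^ z * ∑ v ∈ range (i + 1), ∑ w ∈ range (j + 1),
        bw i v * (bw j w * if Wn x i v ∧ Wn x (i + j) (v + w) then 1 else 0) := by
    intro i hi j hj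
    have hi' := mem_range.1 hi
    have hj' := mem_range.1 hj
    rw [← two_visits hC d z i j (by omega) (Wn x i) (Wn x (i + j)), card_eq_sum_ones, sum_filter]
    push_cast
    refine sum_le_sum fun N hN => ?_
    simp only [ha]
    by_cases c1 : (T d)^[i] N ∈ blk k 1
    · by_cases c2 : (T d)^[i + j] N ∈ blk k 1
      · have v1 := visit hD d k z i N (by omega) hN c1
        have v2 := visit hD d k z (i + j) N (by omega) hN c2
        rw [if_pos c1, if_pos c2, if_pos ⟨v1, v2⟩, mul_one]
      · rw [if_neg c2, mul_zero]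
        split_ifs <;> norm_num
    · rw [if_neg c1, zero_mul]
      split_ifs <;> norm_num
  -- the sum over the second visit
  have h5 : ∀ i ∈ range n, ∑ j ∈ range (n - i), ∑ N ∈ I, a N i * a N (i + j) ≤
      2 ^ z * (Cv * ∑ v ∈ range (i + 1), if Wn x i v then bw i v else 0) := by
    intro i hi
    refine (sum_le_sum (h4 i hi)).trans ?_
    rw [← mul_sum]
    refine mul_le_mul_of_nonneg_left ?_ (by positivity)
    rw [sum_comm, mul_sum]
    refine sum_le_sum fun v hv' => ?_
    by_cases c : Wn x i v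
    · rw [if_pos c]
      have h6 := hv (x - ((i : ℝ) - th * v)) (n - i)
      have h7 : ∑ j ∈ range (n - i), ∑ w ∈ range (j + 1),
          bw i v * (bw j w * if Wn x i v ∧ Wn x (i + j) (v + w) then 1 else 0) =
          bw i v * ∑ u ∈ range (n - i), ∑ w ∈ range (u + 1),
            (if x - ((i : ℝ) - th * v) ≤ (u : ℝ) - th * w ∧
              (u : ℝ) - th * w < x - ((i : ℝ) - th * v) + 3 then (u.choose w : ℝ) / 2 ^ u
              else 0) := by
        rw [mul_sum]
        refine sum_congr rfl fun j _ => ?_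
        rw [mul_sum]
        refine sum_congr rfl fun w _ => ?_
        congr 1
        have e : (Wn x i v ∧ Wn x (i + j) (v + w)) ↔ (x - ((i : ℝ) - th * v) ≤ (j : ℝ) - th * w ∧
              (j : ℝ) - th * w < x - ((i : ℝ) - th * v) + 3) := by
          unfold Wn at c ⊢
          push_cast
          constructor
          · rintro ⟨_, h8, h9⟩
            constructor <;> linarith
          · rintro ⟨h8, h9⟩
            exact ⟨c, by linarith, by linarith⟩
        unfold bw
        by_cases c3 : (Wn x i v ∧ Wn x (i + j) (v + w))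
        · rw [if_pos c3, if_pos (e.1 c3), mul_one]
        · rw [if_neg c3, if_neg (fun h => c3 (e.2 h)), mul_zero]
      rw [h7, mul_comm Cv]
      refine mul_le_mul_of_nonneg_left h6 ?_
      unfold bw
      positivity
    · rw [if_neg c, mul_zero]
      refine le_of_eq (sum_eq_zero fun j _ => sum_eq_zero fun w _ => ?_)
      rw [if_neg (fun h => c h.1), mul_zero, mul_zero]
  have h6 := hv x n
  have h7 : ∑ i ∈ range n, ∑ v ∈ range (i + 1), (if Wn x i v then bw i v else 0) ≤ Cv := by
    refine le_trans (le_of_eq ?_) h6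
    refine sum_congr rfl fun i _ => sum_congr rfl fun v _ => ?_
    by_cases c : Wn x i v
    · rw [if_pos c, if_pos (show x ≤ (i : ℝ) - th * v ∧ (i : ℝ) - th * v < x + 3 from c)]
      rfl
    · rw [if_neg c, if_neg (show ¬ (x ≤ (i : ℝ) - th * v ∧ (i : ℝ) - th * v < x + 3) from c)]
  calc 2 * ∑ i ∈ range n, ∑ j ∈ range (n - i), ∑ N ∈ I, a N i * a N (i + j) ≤
      2 * ∑ i ∈ range n, 2 ^ z * (Cv * ∑ v ∈ range (i + 1), if Wn x i v then bw i v else 0) := by
        refine mul_le_mul_of_nonneg_left (sum_le_sum h5) (by norm_num)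
    _ = 2 * (2 ^ z * (Cv * ∑ i ∈ range n, ∑ v ∈ range (i + 1),
          (if Wn x i v then bw i v else 0))) := by
        rw [← mul_sum, ← mul_sum]
    _ ≤ 2 * (2 ^ z * (Cv * Cv)) := by gcongr
    _ = 2 * Cv ^ 2 * 2 ^ z := by ring

end Pool.Agent.Lib.MP_edb5be_nt.ND.H21
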